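import Pool.Agent.Y882.JR.Fin

/-! The linear sieve for the values of a polynomial in short intervals, from its densities. -/

set_option autoImplicit false

namespace Pool.Agent.L5helper16.QX

open Finset Polynomial Filter
open Pool.Agent.W23.DC
open Pool.Agent.Y882.PX
open Pool.Agent.Y882.SI
open Pool.Agent.Y882 Pool.Agent.Y882.JR

/-- the sieve density of `G` -/
noncomputable def densG (G : ℤ[X]) (z : ℝ) : ℝ :=
  ∏ p ∈ (Finset.range ⌈z⌉₊).filter Nat.Prime, (1 - (ro G 0 p : ℝ) / p)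

open Classical in
/-- the number of the `n` in `(N, N + H]` such that `G(n)` has no prime factor below `z` -/
noncomputable def roughG (G : ℤ[X]) (z : ℝ) (N H : ℕ) : ℕ :=
  ((Finset.Ioc N (N + H)).filter
    (fun n : ℕ => ∀ p : ℕ, p.Prime → (p : ℤ) ∣ G.eval (n : ℤ) → z ≤ p)).card

theorem vv_eqG (G : ℤ[X]) (X : ℕ) (hX : 2 ≤ X) (ζ : ℝ) (hζ : ζ ≤ 1) :
    vv G X ζ = densG G ((X : ℝ) ^ ζ) := by
  unfold vv densG
  rw [PZ_eq X hX ζ hζ]

theorem rgh_eqG (G : ℤ[X]) (X : ℕ) (hX : 2 ≤ X) (ζ : ℝ) (hζ : ζ ≤ 1) (h N : ℕ) :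
    rgh G X ζ h N = (roughG G ((X : ℝ) ^ ζ) N h : ℝ) := by
  classical
  unfold rgh roughG
  congr 1
  symm
  apply card_bij' (i := fun (n : ℕ) _ => n - N) (j := fun (j : ℕ) _ => N + j)
  · intro n hn
    rw [mem_filter, mem_Ioc] at hn
    rw [mem_filter, mem_Icc]
    refine ⟨⟨by omega, by omega⟩, ?_⟩
    intro p hp hd
    rw [PZ_eq X hX ζ hζ, mem_filter, mem_range] at hp
    have h1 : N + (n - N) = n := by omega
    rw [h1] at hd
    have h2 := hn.2 p hp.2 (Int.natCast_dvd.2 hd)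
    exact absurd (Nat.lt_ceil.1 hp.1) (not_lt.2 h2)
  · intro j hj
    rw [mem_filter, mem_Icc] at hj
    rw [mem_filter, mem_Ioc]
    refine ⟨⟨by omega, by omega⟩, ?_⟩
    intro p hp hd
    by_contra hlt
    push Not at hlt
    refine hj.2 p ?_ ?_
    · rw [PZ_eq X hX ζ hζ, mem_filter, mem_range]
      exact ⟨Nat.lt_ceil.2 hlt, hp⟩
    · exact Int.natCast_dvd.1 hd
  · intro n hn
    rw [mem_filter, mem_Ioc] at hn
    show N + (n - N) = n
    omega
  · intro j _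
    show N + j - N = j
    omega

open Classical in
theorem finJRG (A0 : ℝ) (F f : ℝ → ℝ) (hSF : SF A0 F f) (G : ℤ[X]) (K : ℕ) (c : ℝ) (hc : 0 < c)
    (hro : ∀ p : ℕ, p.Prime → ro G 0 p ≤ K)
    (hmer : ∀ ε₁ υ η : ℝ, 0 < ε₁ → υ ≤ 1 → 0 < η → ∃ Y0 : ℕ, ∀ Y : ℕ, Y0 ≤ Y →
      Mer (pr Y ε₁ υ) (tt Y) (fun p => (ro G 0 p : ℝ) / p) ε₁ υ η)
    (HL : ∀ Y : ℕ, 3 ≤ Y → c / Real.log Y ≤ lo G Y)
    (τ s h δ ε : ℝ) (hτ1 : 1 / 2 ≤ τ) (hτ : τ < 1) (hs : 1 ≤ s) (hh : 0 < h) (hh1 : h ≤ 1)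
    (hδ : 0 < δ) (hε : 0 < ε) :
    ∀ᶠ X : ℕ in atTop, (((Icc 1 X).filter (fun N =>
      ¬ ((f s - δ) * ((X : ℝ) ^ h * densG G ((X : ℝ) ^ (τ / s))) ≤
          (roughG G ((X : ℝ) ^ (τ / s)) N ⌊(X : ℝ) ^ h⌋₊ : ℝ) ∧
        (roughG G ((X : ℝ) ^ (τ / s)) N ⌊(X : ℝ) ^ h⌋₊ : ℝ) ≤
          (F s + δ) * ((X : ℝ) ^ h * densG G ((X : ℝ) ^ (τ / s)))))).card : ℝ) ≤
      (X : ℝ) ^ (2 * τ - h + ε) := by
  have hτ0 : 0 < τ := by linarith
  have hζ : 0 < τ / s := by positivity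
  have hζτ : τ / s ≤ τ := div_le_self hτ0.le hs
  have hζ1 : τ / s ≤ 1 := by linarith
  have hsζ : τ / (τ / s) = s := by field_simp
  obtain ⟨ε₁, η, hε₁, hε₁ζ, hη, Y1, HE⟩ := engJR K A0 F f hSF τ (τ / s) (δ / 2) (ε / 2) hζ hζτ hτ
    (by linarith) (by linarith)
  rw [hsζ] at HE
  obtain ⟨Y2, HM⟩ := hmer ε₁ (τ / s) η hε₁ hζ1 hη
  have ev1 : ∀ᶠ Y : ℕ in atTop, (4 : ℝ) ≤ (Y : ℝ) ^ (ε / 2) :=
    ((tendsto_rpow_atTop (by linarith)).comp tendsto_natCast_atTop_atTop).eventually_ge_atTop _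
  have ev2 : ∀ᶠ Y : ℕ in atTop, 2 + (2 * (|f s| + F s + δ) / δ) ≤ (Y : ℝ) ^ h :=
    ((tendsto_rpow_atTop hh).comp tendsto_natCast_atTop_atTop).eventually_ge_atTop _
  have ev3 : ∀ᶠ Y : ℕ in atTop, Real.log Y / c ≤ (Y : ℝ) ^ (ε / 2 / 32) := by
    have h1 := (isLittleO_log_rpow_atTop (show 0 < ε / 2 / 32 by linarith)).bound hc
    filter_upwards [tendsto_natCast_atTop_atTop.eventually h1, eventually_ge_atTop 1] with Y hY hY1
    have hY1r : (1 : ℝ) ≤ Y := by exact_mod_cast hY1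
    rw [Real.norm_of_nonneg (Real.log_nonneg hY1r), Real.norm_of_nonneg (by positivity)] at hY
    rw [div_le_iff₀ hc]
    linarith
  filter_upwards [ev1, ev2, ev3, eventually_ge_atTop 3, eventually_ge_atTop Y1,
    eventually_ge_atTop Y2] with X e1 e2 e3 e5 hX1 hX2
  have hFs1 : 1 ≤ F s := hSF.F1 s hs
  have hXr : (3 : ℝ) ≤ X := by exact_mod_cast e5
  have hX0 : (0 : ℝ) < X := by linarith
  have hX1r : (1 : ℝ) ≤ X := by linarith
  have hlX : 0 < Real.log X := Real.log_pos (by linarith)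
  set H : ℕ := ⌊(X : ℝ) ^ h⌋₊ with hH
  have hHle : (H : ℝ) ≤ (X : ℝ) ^ h := Nat.floor_le (by positivity)
  have hHgt : (X : ℝ) ^ h - 1 < H := by
    have := Nat.lt_floor_add_one ((X : ℝ) ^ h)
    rw [← hH] at this
    linarith
  have hr0 : 0 ≤ 2 * (|f s| + F s + δ) / δ := by positivity
  have hHge : (X : ℝ) ^ h / 2 ≤ H := by linarith
  have hH1 : 1 ≤ H := by
    have : (1 : ℝ) < H := by linarith
    exact_mod_cast this.le
  have hHr : (0 : ℝ) < H := by exact_mod_cast hH1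
  -- the density
  have hlo : lo G X ≤ vv G X (τ / s) := by
    unfold lo vv
    have hsub : PZ X (τ / s) ⊆ (Icc 1 X).filter Nat.Prime := by
      intro p hp
      unfold PZ at hp
      rw [mem_filter] at hp
      rw [mem_filter]
      exact ⟨hp.1, hp.2.1⟩
    have h01 : ∀ p ∈ (Icc 1 X).filter Nat.Prime,
        0 ≤ 1 - (ro G 0 p : ℝ) / p ∧ 1 - (ro G 0 p : ℝ) / p ≤ 1 := by
      intro p hp
      have hpp := (mem_filter.1 hp).2
      have hp0 : (0 : ℝ) < p := by exact_mod_cast hpp.pos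
      have h1 : (ro G 0 p : ℝ) ≤ p := by exact_mod_cast ro_le_self G 0 p
      constructor
      · rw [sub_nonneg, div_le_one hp0]
        exact h1
      · have : 0 ≤ (ro G 0 p : ℝ) / p := by positivity
        linarith
    rw [← prod_sdiff hsub]
    calc (∏ p ∈ (Icc 1 X).filter Nat.Prime \ PZ X (τ / s), (1 - (ro G 0 p : ℝ) / p)) *
        ∏ p ∈ PZ X (τ / s), (1 - (ro G 0 p : ℝ) / p) ≤
        1 * ∏ p ∈ PZ X (τ / s), (1 - (ro G 0 p : ℝ) / p) := by
          apply mul_le_mul_of_nonneg_right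
          · apply prod_le_one
            · intro p hp
              exact (h01 p (mem_sdiff.1 hp).1).1
            · intro p hp
              exact (h01 p (mem_sdiff.1 hp).1).2
          · exact prod_nonneg fun p hp => (h01 p (hsub hp)).1
      _ = _ := one_mul _
  have hL := HL X e5
  have hVpos : 0 < vv G X (τ / s) := lt_of_lt_of_le (by positivity) (hL.trans hlo)
  have hV : (X : ℝ) ^ (-(ε / 2 / 32)) ≤ vv G X (τ / s) := by
    refine le_trans ?_ (hL.trans hlo)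
    rw [Real.rpow_neg hX0.le]
    have h6 := inv_anti₀ (show 0 < Real.log X / c by positivity) e3
    rwa [inv_div] at h6
  have hA := HE X hX1 G X H hro (by omega) hV (HM X hX2)
  rw [vv_eqG G X (by omega) _ hζ1] at hA hVpos
  set V : ℝ := densG G ((X : ℝ) ^ (τ / s)) with hVdef
  have hcmp : ∀ g : ℝ, |g| ≤ |f s| + F s → |g * ((X : ℝ) ^ h * V) - g * (H * V)| ≤
      δ / 2 * (H * V) := by
    intro g hg
    have h1 : g * ((X : ℝ) ^ h * V) - g * (H * V) = g * (((X : ℝ) ^ h - H) * V) := by ring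
    rw [h1, abs_mul, abs_of_nonneg (mul_nonneg (by linarith) hVpos.le)]
    calc |g| * (((X : ℝ) ^ h - H) * V) ≤ (|f s| + F s) * (1 * V) := by
          apply mul_le_mul hg _ (mul_nonneg (by linarith) hVpos.le) (by positivity)
          apply mul_le_mul_of_nonneg_right _ hVpos.le
          linarith
      _ ≤ δ / 2 * (H * V) := by
          have h2 : 2 * (|f s| + F s + δ) / δ ≤ H := by linarith
          rw [div_le_iff₀ hδ] at h2
          have h3 : (|f s| + F s) ≤ δ / 2 * H := by linarith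
          calc (|f s| + F s) * (1 * V) = (|f s| + F s) * V := by ring
            _ ≤ (δ / 2 * H) * V := mul_le_mul_of_nonneg_right h3 hVpos.le
            _ = _ := by ring
  have hXh0 : (0 : ℝ) < (X : ℝ) ^ h := by positivity
  have hsub : (Icc 1 X).filter (fun N =>
      ¬ ((f s - δ) * ((X : ℝ) ^ h * V) ≤ (roughG G ((X : ℝ) ^ (τ / s)) N H : ℝ) ∧
        (roughG G ((X : ℝ) ^ (τ / s)) N H : ℝ) ≤ (F s + δ) * ((X : ℝ) ^ h * V))) ⊆
      (Icc 1 X).filter (fun N => ¬ ((f s - δ / 2) * (H * V) ≤ rgh G X (τ / s) H N ∧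
          rgh G X (τ / s) H N ≤ (F s + δ / 2) * (H * V))) := by
    intro N hN
    rw [mem_filter] at hN ⊢
    refine ⟨hN.1, ?_⟩
    intro hcon
    apply hN.2
    rw [rgh_eqG G X (by omega) _ hζ1] at hcon
    have hHV : (H : ℝ) * V ≤ (X : ℝ) ^ h * V := mul_le_mul_of_nonneg_right hHle hVpos.le
    have hHV0 : 0 ≤ (H : ℝ) * V := by positivity
    constructor
    · refine le_trans ?_ hcon.1
      have h1 := hcmp (f s) (by linarith)
      have h2 := (abs_le.1 h1).2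
      have h3 : (f s - δ) * ((X : ℝ) ^ h * V) = f s * ((X : ℝ) ^ h * V) - δ * ((X : ℝ) ^ h * V) := by
        ring
      have h4 : (f s - δ / 2) * (H * V) = f s * (H * V) - δ / 2 * (H * V) := by ring
      have h5 : δ * (H * V) ≤ δ * ((X : ℝ) ^ h * V) := mul_le_mul_of_nonneg_left hHV hδ.le
      rw [h3, h4]
      linarith
    · refine hcon.2.trans ?_
      have h5 : (F s + δ / 2) * (H * V) ≤ (F s + δ / 2) * ((X : ℝ) ^ h * V) :=
        mul_le_mul_of_nonneg_left hHV (by linarith)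
      refine h5.trans ?_
      apply mul_le_mul_of_nonneg_right _ (by positivity)
      linarith
  calc (((Icc 1 X).filter (fun N =>
      ¬ ((f s - δ) * ((X : ℝ) ^ h * V) ≤ (roughG G ((X : ℝ) ^ (τ / s)) N H : ℝ) ∧
        (roughG G ((X : ℝ) ^ (τ / s)) N H : ℝ) ≤ (F s + δ) * ((X : ℝ) ^ h * V)))).card : ℝ) ≤ _ := by
        exact_mod_cast card_le_card hsub
    _ ≤ (X + (X : ℝ) ^ (2 * τ)) / H * (X : ℝ) ^ (ε / 2) := hA
    _ ≤ (2 * (X : ℝ) ^ (2 * τ)) / ((X : ℝ) ^ h / 2) * (X : ℝ) ^ (ε / 2) := by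
        have u1 : (X : ℝ) ≤ (X : ℝ) ^ (2 * τ) := by
          calc (X : ℝ) = (X : ℝ) ^ (1 : ℝ) := (Real.rpow_one _).symm
            _ ≤ _ := Real.rpow_le_rpow_of_exponent_le hX1r (by linarith)
        apply mul_le_mul_of_nonneg_right _ (by positivity)
        apply div_le_div₀ (by positivity) (by linarith) (by positivity) hHge
    _ = 4 * ((X : ℝ) ^ (2 * τ) / (X : ℝ) ^ h) * (X : ℝ) ^ (ε / 2) := by
        field_simp
        norm_num
    _ ≤ (X : ℝ) ^ (ε / 2) * ((X : ℝ) ^ (2 * τ) / (X : ℝ) ^ h) * (X : ℝ) ^ (ε / 2) := by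
        gcongr
    _ = _ := by
        rw [← Real.rpow_sub hX0, ← Real.rpow_add hX0, ← Real.rpow_add hX0]
        congr 1
        ring

end Pool.Agent.L5helper16.QX
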