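import Pool.Agent.R498.MT.QGen
import Pool.Agent.L5helper16.QX.Fin

/-! The polynomial `X ^ 2 + X + A`, `A` odd. -/

set_option autoImplicit false

namespace Pool.Agent.L5helper16.QX

open Finset Polynomial Filter
open Pool.Agent.W23.DC
open Pool.Agent.Y882.PX
open Pool.Agent.Y882.KW
open Pool.Agent.Y882.SI
open Pool.Agent.Y882.MG
open Pool.Agent.R498.MT

/-- the polynomial `X ^ 2 + X + A` -/
noncomputable def FA (A : ℤ) : ℤ[X] := QG 1 1 A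

theorem FA_eval (A n : ℤ) : (FA A).eval n = n ^ 2 + n + A := by
  unfold FA
  rw [QG_eval]
  ring

theorem disc_FA (A : ℤ) : (1 : ℤ) ^ 2 - 4 * 1 * A = -(4 * A - 1) := by ring

theorem nsq (A : ℤ) (hA : ¬ IsSquare (1 - 4 * A)) : ¬ IsSquare ((1 : ℤ) ^ 2 - 4 * 1 * A) := by
  have e : (1 : ℤ) ^ 2 - 4 * 1 * A = 1 - 4 * A := by ring
  rwa [e]

theorem nsq' (A : ℤ) (hA : ¬ IsSquare (1 - 4 * A)) : ¬ IsSquare (-(4 * A - 1)) := by
  have e : -(4 * A - 1) = 1 - 4 * A := by ring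
  rwa [e]

theorem ro_odd (A : ℤ) (p : ℕ) (hp : p.Prime) (h2 : p ≠ 2) :
    ro (FA A) 0 p = ro (QF (4 * A - 1)) 0 p := by
  have h := rt_QG 1 1 A p hp (by
    intro hd
    have h3 : p ∣ 2 := by exact_mod_cast (show (p : ℤ) ∣ 2 by simpa using hd)
    exact h2 ((Nat.prime_dvd_prime_iff_eq hp Nat.prime_two).1 h3))
  rw [rt_ro, rt_ro] at h
  have e : -((1 : ℤ) ^ 2 - 4 * 1 * A) = 4 * A - 1 := by ring
  rw [e] at h
  exact h

theorem ro_two (A : ℤ) (hA : Odd A) : ro (FA A) 0 2 = 0 := by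
  rw [ro_eq, card_eq_zero, filter_eq_empty_iff]
  intro n hn hd
  rw [mem_range] at hn
  rw [FA_eval, add_zero] at hd
  obtain ⟨k, hk⟩ := hA
  subst hk
  interval_cases n
  · push_cast at hd
    omega
  · push_cast at hd
    omega

theorem ro_le (A : ℤ) (hA : Odd A) (p : ℕ) (hp : p.Prime) : ro (FA A) 0 p ≤ 2 := by
  by_cases h2 : p = 2
  · rw [h2, ro_two A hA]
    omega
  · rw [ro_odd A p hp h2]
    exact ro_quad_le _ p hp

theorem lo_FA (A : ℤ) (hA : Odd A) (hΔ : ¬ IsSquare (1 - 4 * A)) : ∃ c : ℝ, 0 < c ∧ ∀ Y : ℕ, 3 ≤ Y →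
    c / Real.log Y ≤ lo (FA A) Y := by
  obtain ⟨c, hc, H⟩ := lo_quad (4 * A - 1) (nsq' A hΔ)
  refine ⟨c, hc, fun Y hY => (H Y hY).trans ?_⟩
  unfold lo
  apply Finset.prod_le_prod
  · intro p hp
    have hpp := (mem_filter.1 hp).2
    have hp0 : (0 : ℝ) < p := by exact_mod_cast hpp.pos
    have h1 : (ro (QF (4 * A - 1)) 0 p : ℝ) ≤ p := by exact_mod_cast ro_le_self _ 0 p
    rw [sub_nonneg, div_le_one hp0]
    exact h1
  · intro p hp
    have hpp := (mem_filter.1 hp).2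
    by_cases h2 : p = 2
    · subst h2
      rw [ro_two A hA, ro_quad_two]
      norm_num
    · rw [ro_odd A p hpp h2]

theorem mer_FA (A : ℤ) (hΔ : ¬ IsSquare (1 - 4 * A)) (ε₁ υ η : ℝ) (hε : 0 < ε₁) (hυ : υ ≤ 1) (hη : 0 < η) :
    ∃ Y0 : ℕ, ∀ Y : ℕ, Y0 ≤ Y → Mer (pr Y ε₁ υ) (tt Y) (fun p => (ro (FA A) 0 p : ℝ) / p) ε₁ υ η := by
  obtain ⟨Y0, h⟩ := mer_QG 1 1 A one_ne_zero (nsq A hΔ) ε₁ υ η hε hυ hη
  refine ⟨Y0, fun Y hY => ?_⟩
  have := h Y hY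
  simp_rw [rt_ro] at this
  exact this

open Classical in
theorem qd_FA (A : ℤ) (hA : Odd A) (hΔ : ¬ IsSquare (1 - 4 * A)) :
    ∃ c : ℝ, QD (FA A) (2 + A.natAbs) 2 (A.natAbs + 4 * A.natAbs + 8) c := by
  obtain ⟨c, hc, HL⟩ := lo_FA A hA hΔ
  refine ⟨c, ?_, ?_, ro_le A hA, ?_, fun ε₁ υ η h1 h2 h3 => mer_FA A hΔ ε₁ υ η h1 h2 h3, hc, HL⟩
  · intro n h0
    rw [FA_eval] at h0
    apply hΔ
    exact ⟨2 * n + 1, by linarith⟩
  · intro n
    rw [FA_eval]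
    have h1 : ((n : ℤ) ^ 2 + n + A).natAbs ≤ n ^ 2 + n + A.natAbs := by
      calc ((n : ℤ) ^ 2 + n + A).natAbs ≤ ((n : ℤ) ^ 2 + n).natAbs + A.natAbs := Int.natAbs_add_le _ _
        _ = n ^ 2 + n + A.natAbs := by
            have e7 : (n : ℤ) ^ 2 + n = ((n ^ 2 + n : ℕ) : ℤ) := by push_cast; ring
            rw [e7, Int.natAbs_natCast]
    refine h1.trans ?_
    nlinarith [Nat.zero_le A.natAbs, Nat.zero_le n, Nat.zero_le (A.natAbs * n), Nat.zero_le (A.natAbs * n ^ 2)]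
  · intro q hq hqa N H
    have h := sq_QG 1 1 A one_ne_zero (nsq A hΔ) q hq (by
      have e : ((1 : ℤ) ^ 2 - 4 * 1 * A).natAbs ≤ 1 + 4 * A.natAbs := by
        have e1 : (1 : ℤ) ^ 2 - 4 * 1 * A = 1 + -(4 * A) := by ring
        rw [e1]
        refine (Int.natAbs_add_le _ _).trans ?_
        rw [Int.natAbs_neg, Int.natAbs_mul]
        simp
      have e2 : (1 : ℤ).natAbs = 1 := rfl
      rw [e2]
      omega) (by omega) N H
    exact h

end Pool.Agent.L5helper16.QX
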