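import Pool.Agent.L5helper16.QX.Pol
import Pool.Agent.Y677.RSZ.Fin
import Pool.Agent.TH464.PW.Quad

/-! Narrow progressions of almost prime values of `X ^ 2 + X + A` in almost all short intervals. -/

set_option autoImplicit false

namespace Pool.Agent.L5helper16.QX

open Finset Filter Polynomial
open Pool.Agent.Y677.RSZ (InProg Outside)
open Pool.Agent.TH977.PW (N)
open Pool.Agent.TH464.PW (quad)

/-- the system `X ^ 2 + X + A` -/
theorem sysA (A : ℤ) (hA : Odd A) (hΔ : ¬ IsSquare (1 - 4 * A)) :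
    Pool.Agent.W123.RU.Poly.Sys (fun _ : Fin 1 => quad 1 1 A) where
  irr := fun _ => by
    apply Pool.Agent.TH464.PW.quad_irr 1 1 A one_ne_zero
    · rintro p hp ⟨h1, -, -⟩
      exact hp.one_lt.ne' (Nat.dvd_one.1 (by exact_mod_cast h1))
    · exact nsq A hΔ
  deg := fun _ => by rw [Pool.Agent.TH464.PW.quad_deg 1 1 A one_ne_zero]; norm_num
  lead := fun _ => by rw [Pool.Agent.TH464.PW.quad_lead 1 1 A one_ne_zero]; norm_num
  inj := fun _ _ _ => Subsingleton.elim _ _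
  adm := fun p hp => by
    by_cases h : (p : ℤ) ∣ A
    · refine ⟨1, fun _ h2 => ?_⟩
      rw [Pool.Agent.TH464.PW.quad_eval] at h2
      have h3 : (p : ℤ) ∣ 2 := by
        have := dvd_sub h2 h
        have e : 1 * ((1 : ℕ) : ℤ) ^ 2 + 1 * ((1 : ℕ) : ℤ) + A - A = 2 := by push_cast; ring
        first
          | rwa [e] at this
          | (push_cast at this; ring_nf at this; exact this)
      have h4 : p ∣ 2 := by exact_mod_cast h3
      have h5 : p = 2 := (Nat.prime_dvd_prime_iff_eq hp Nat.prime_two).1 h4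
      subst h5
      obtain ⟨k, hk⟩ := hA
      have h6 : ((2 : ℕ) : ℤ) = 2 := rfl
      rw [h6] at h
      omega
    · refine ⟨0, fun _ h2 => ?_⟩
      rw [Pool.Agent.TH464.PW.quad_eval] at h2
      apply h
      simpa using h2

open Classical in
/-- the almost prime arguments that are terms of a narrow progression of almost prime arguments -/
noncomputable def cntG (F : ℤ[X]) (r : ℕ) (w : ℝ) (l : ℕ) (D : ℝ) (M H : ℕ) : ℕ :=
  ((gs F r w M H).filter (fun n => InProg (gs F r w M H : Set ℕ) l D M (M + H) n)).card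

theorem finA (A : ℤ) (hA : Odd A) (hΔ : ¬ IsSquare (1 - 4 * A)) (r : ℕ) (t z : ℝ)
    (hpar : (r = 5 ∧ 1 / 2 ≤ t ∧ z = 2 / 5 * t) ∨ (r = 4 ∧ 269 / 500 ≤ t ∧ z = t / 4) ∨
      (r = 3 ∧ 29 / 40 ≤ t ∧ z = t / 4)) (ht : t < 1) (h ε : ℝ) (hh : 0 < h) (h1 : h ≤ 1)
    (hε : 0 < ε) :
    ∃ δ : ℝ, 0 < δ ∧ ∃ X0 : ℕ, ∀ X : ℕ, X0 ≤ X →
      (((Icc 1 X).filter (fun M => ((gs (FA A) r ((X : ℝ) ^ z) M ⌊(X : ℝ) ^ h⌋₊).card : ℝ) <
        δ * (X : ℝ) ^ h / Real.log X)).card : ℝ) ≤ (X : ℝ) ^ (2 * t - h + ε) := by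
  obtain ⟨c, hF⟩ := qd_FA A hA hΔ
  rcases hpar with ⟨rfl, ht0, rfl⟩ | ⟨rfl, ht0, rfl⟩ | ⟨rfl, ht0, rfl⟩
  · have hc := Pool.Agent.Y882.KW.cond_B t (20 / 31) (by linarith) (by norm_num) (by norm_num)
    exact finAll _ _ _ _ c hF 5 t (2 / 5 * t) (9 / 10 * t) (20 / 31)
      (1001 / 500) (by linarith) (by linarith) (by linarith) ht (by linarith) (by linarith)
      (by linarith) (by norm_num) hc (by norm_num) (by
        have h3 : (1001 / 500 : ℝ) / (9 / 10 * t) ≤ 4449 / 1000 := by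
          rw [div_le_iff₀ (by linarith)]
          linarith
        push_cast
        norm_num at h3 ⊢
        linarith) h ε hh h1 hε
  · have hc := Pool.Agent.Y882.KW.cond_A t (8 / 9) (by linarith) (by norm_num) (by norm_num)
    exact finAll _ _ _ _ c hF 4 t (t / 4) (24 / 25 * t) (8 / 9)
      (2001 / 1000) (by linarith) (by linarith) (by linarith) ht (by linarith) (by linarith)
      (by linarith) (by norm_num) hc (by norm_num) (by
        have h3 : (2001 / 1000 : ℝ) / (24 / 25 * t) ≤ 3875 / 1000 := by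
          rw [div_le_iff₀ (by linarith)]
          linarith
        push_cast
        norm_num at h3 ⊢
        linarith) h ε hh h1 hε
  · have hc := Pool.Agent.Y882.KW.cond_A t (8 / 9) (by linarith) (by norm_num) (by norm_num)
    exact finAll _ _ _ _ c hF 3 t (t / 4) (24 / 25 * t) (8 / 9)
      (2001 / 1000) (by linarith) (by linarith) (by linarith) ht (by linarith) (by linarith)
      (by linarith) (by norm_num) hc (by norm_num) (by
        have h3 : (2001 / 1000 : ℝ) / (24 / 25 * t) ≤ 2875 / 1000 := by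
          rw [div_le_iff₀ (by linarith)]
          linarith
        push_cast
        norm_num at h3 ⊢
        linarith) h ε hh h1 hε

open Classical in
theorem mainAP (A : ℤ) (hA : Odd A) (hΔ : ¬ IsSquare (1 - 4 * A)) (r : ℕ) (t z : ℝ)
    (hpar : (r = 5 ∧ 1 / 2 ≤ t ∧ z = 2 / 5 * t) ∨ (r = 4 ∧ 269 / 500 ≤ t ∧ z = t / 4) ∨
      (r = 3 ∧ 29 / 40 ≤ t ∧ z = t / 4)) (ht : t < 1) (h ε : ℝ) (hh : 0 < h) (hht : h ≤ t)
    (hε : 0 < ε) (l : ℕ) (hl : 2 ≤ l) :
    ∃ δ : ℝ, 0 < δ ∧ ∃ B : ℕ, ∀ᶠ X : ℕ in atTop,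
      (((Icc 1 X).filter (fun M =>
        (cntG (FA A) r ((X : ℝ) ^ z) l (Real.log X ^ B) M ⌊(X : ℝ) ^ h⌋₊ : ℝ) <
        δ * ((X : ℝ) ^ h / Real.log X))).card : ℝ) ≤ (X : ℝ) ^ (2 * t - h + ε) := by
  have ht0 : 1 / 2 ≤ t := by
    rcases hpar with ⟨_, h, _⟩ | ⟨_, h, _⟩ | ⟨_, h, _⟩ <;> linarith
  have hz0 : 0 < z := by
    rcases hpar with ⟨_, _, h⟩ | ⟨_, _, h⟩ | ⟨_, _, h⟩ <;> rw [h] <;> linarith
  obtain ⟨δ₀, hδ₀, X0, HF⟩ := finA A hA hΔ r t z hpar ht h (ε / 2) hh (by linarith) (by linarith)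
  obtain ⟨r', hr'⟩ := exists_nat_gt (2 / z)
  set r₁ : ℕ := max r' 2 with hr₁
  have hr₁2 : 2 ≤ r₁ := le_max_right _ _
  have hr₁z : 2 / (r₁ : ℝ) < z := by
    have h1 : (r' : ℝ) ≤ r₁ := by exact_mod_cast le_max_left _ _
    have h2 : (0 : ℝ) < r₁ := by
      have : 0 < r₁ := by omega
      exact_mod_cast this
    rw [div_lt_iff₀ h2]
    rw [div_lt_iff₀ hz0] at hr'
    nlinarith
  obtain ⟨B, hB⟩ := Pool.Agent.Y677.RSZ.narrow (fun _ : Fin 1 => quad 1 1 A)
    (sysA A hA hΔ) (h / 2) (by linarith) r₁ hr₁2 l hl (δ₀ * h / 2) (by positivity)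
  obtain ⟨N0, hN0⟩ := eventually_atTop.1 hB
  refine ⟨δ₀ / 2, by positivity, B, ?_⟩
  have hXr : Tendsto (fun X : ℕ => (X : ℝ)) atTop atTop := tendsto_natCast_atTop_atTop
  have ev1 : ∀ᶠ X : ℕ in atTop, (2 : ℝ) ≤ (X : ℝ) ^ (h / 2) :=
    ((tendsto_rpow_atTop (by linarith)).comp hXr).eventually_ge_atTop _
  have ev2 : ∀ᶠ X : ℕ in atTop, (4 : ℝ) ≤ (X : ℝ) ^ (ε / 2) :=
    ((tendsto_rpow_atTop (by linarith)).comp hXr).eventually_ge_atTop _
  have ev3 : ∀ᶠ X : ℕ in atTop, (N0 : ℝ) ≤ (X : ℝ) ^ (2 * t - h) :=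
    ((tendsto_rpow_atTop (by linarith)).comp hXr).eventually_ge_atTop _
  filter_upwards [ev1, ev2, ev3, eventually_ge_atTop 3, eventually_ge_atTop X0] with X e1 e2 e3 e4 e5
  have hX3 : (3 : ℝ) ≤ X := by exact_mod_cast e4
  have hX0 : (0 : ℝ) < X := by linarith
  have hX1 : (1 : ℝ) ≤ X := by linarith
  have hlX : 0 < Real.log X := Real.log_pos (by linarith)
  set H : ℕ := ⌊(X : ℝ) ^ h⌋₊ with hH
  have hHle : (H : ℝ) ≤ (X : ℝ) ^ h := Nat.floor_le (by positivity)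
  have hHX : (X : ℝ) ^ h ≤ X := by
    calc (X : ℝ) ^ h ≤ (X : ℝ) ^ (1 : ℝ) := Real.rpow_le_rpow_of_exponent_le hX1 (by linarith)
      _ = X := Real.rpow_one _
  have hXhalf : (X : ℝ) ^ (h / 2) ≤ H := by
    have h1 : (X : ℝ) ^ h = (X : ℝ) ^ (h / 2) * (X : ℝ) ^ (h / 2) := by
      rw [← Real.rpow_add hX0]; congr 1; ring
    have h2 : (X : ℝ) ^ h < H + 1 := Nat.lt_floor_add_one _
    nlinarith
  set w : ℝ := (X : ℝ) ^ z with hw
  -- the good `M`
  have hgood : ∀ M : ℕ, M ≤ X → N0 ≤ M → (X : ℝ) ^ h ≤ M →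
      δ₀ * (X : ℝ) ^ h / Real.log X ≤ ((gs (FA A) r w M H).card : ℝ) →
      δ₀ / 2 * ((X : ℝ) ^ h / Real.log X) ≤ (cntG (FA A) r w l (Real.log X ^ B) M H : ℝ) := by
    intro M hMX hMN hMh hM
    have hM0 : (0 : ℝ) < M := lt_of_lt_of_le (by positivity) hMh
    have hMXr : (M : ℝ) ≤ X := by exact_mod_cast hMX
    have hM1 : (1 : ℝ) < M := by
      have h1 : (1 : ℝ) < (X : ℝ) ^ h := Real.one_lt_rpow (by linarith) hh
      linarith
    have hlM : h * Real.log X ≤ Real.log M := by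
      rw [← Real.log_rpow hX0]
      exact Real.log_le_log (by positivity) hMh
    have hlM2 : Real.log M ≤ Real.log X := Real.log_le_log hM0 hMXr
    have hlM0 : 0 < Real.log M := Real.log_pos hM1
    set S : Set ℕ := (gs (FA A) r w M H : Set ℕ) with hS
    have hHM : H ≤ M := by
      have : (H : ℝ) ≤ M := hHle.trans hMh
      exact_mod_cast this
    have h1 := hN0 M hMN H
      ((Real.rpow_le_rpow hM0.le hMXr (by linarith)).trans hXhalf) hHM S (by
        intro m hm i p hp hd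
        rw [Pool.Agent.TH464.PW.quad_eval] at hd
        have hm' : m ∈ gs (FA A) r w M H := hm
        unfold gs at hm'
        rw [mem_filter, mem_Ioc] at hm'
        have e : (1 : ℤ) * (m : ℤ) ^ 2 + 1 * m + A = (FA A).eval (m : ℤ) := by
          rw [FA_eval]; ring
        rw [e] at hd
        have h2 := hm'.2.2 p hp hd
        refine lt_of_lt_of_le ?_ h2
        have h3 : (m : ℝ) ≤ (X : ℝ) ^ (2 : ℝ) := by
          have h4 : m ≤ M + H := hm'.1.2
          have h5 : (m : ℝ) ≤ M + H := by exact_mod_cast h4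
          rw [Real.rpow_two]
          nlinarith
        have hmpos : (0 : ℝ) < m := by
          have : 0 < m := by omega
          exact_mod_cast this
        calc (m : ℝ) ^ (1 / (r₁ : ℝ)) ≤ ((X : ℝ) ^ (2 : ℝ)) ^ (1 / (r₁ : ℝ)) :=
              Real.rpow_le_rpow hmpos.le h3 (by positivity)
          _ = (X : ℝ) ^ (2 / (r₁ : ℝ)) := by
              rw [← Real.rpow_mul hX0.le]; congr 1; ring
          _ < (X : ℝ) ^ z := Real.rpow_lt_rpow_of_exponent_lt (by linarith) hr₁z)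
    rw [Fintype.card_fin, pow_one] at h1
    -- the elements outside
    have h2 : (gs (FA A) r w M H).card ≤ cntG (FA A) r w l (Real.log X ^ B) M H +
        N (Outside S l (Real.log M ^ B) M (M + H)) M (M + H) := by
      rw [← card_filter_add_card_filter_not
        (fun n => InProg S l (Real.log X ^ B) M (M + H) n)]
      apply Nat.add_le_add le_rfl
      unfold N
      apply card_le_card
      intro n hn
      rw [mem_filter] at hn
      rw [mem_filter]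
      have hn1 := hn.1
      unfold gs at hn1
      rw [mem_filter] at hn1
      refine ⟨hn1.1, hn.1, fun hP => hn.2 ?_⟩
      obtain ⟨u, d, h3, h4, h5, h6⟩ := hP
      exact ⟨u, d, h3, h4.trans (pow_le_pow_left₀ hlM0.le hlM2 B), h5, h6⟩
    have h3 : ((gs (FA A) r w M H).card : ℝ) ≤ (cntG (FA A) r w l (Real.log X ^ B) M H : ℝ) +
        (N (Outside S l (Real.log M ^ B) M (M + H)) M (M + H) : ℝ) := by exact_mod_cast h2
    have h4 : δ₀ * h / 2 * H / Real.log M ≤ δ₀ / 2 * ((X : ℝ) ^ h / Real.log X) := by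
      rw [div_le_iff₀ hlM0]
      calc δ₀ * h / 2 * H ≤ δ₀ * h / 2 * (X : ℝ) ^ h := by gcongr
        _ = δ₀ / 2 * ((X : ℝ) ^ h / Real.log X) * (h * Real.log X) := by field_simp
        _ ≤ δ₀ / 2 * ((X : ℝ) ^ h / Real.log X) * Real.log M := by gcongr
    have h5 : δ₀ * (X : ℝ) ^ h / Real.log X =
        δ₀ / 2 * ((X : ℝ) ^ h / Real.log X) + δ₀ / 2 * ((X : ℝ) ^ h / Real.log X) := by ring
    linarith
  -- the exceptions
  have hsub : (Icc 1 X).filter (fun M =>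
        (cntG (FA A) r w l (Real.log X ^ B) M H : ℝ) < δ₀ / 2 * ((X : ℝ) ^ h / Real.log X)) ⊆
      (range N0 ∪ range (⌊(X : ℝ) ^ h⌋₊ + 1)) ∪ (Icc 1 X).filter (fun M =>
        ((gs (FA A) r w M H).card : ℝ) < δ₀ * (X : ℝ) ^ h / Real.log X) := by
    intro M hM
    rw [mem_filter, mem_Icc] at hM
    rw [mem_union, mem_union, mem_range, mem_range, mem_filter, mem_Icc]
    by_contra hcon
    push Not at hcon
    obtain ⟨⟨h1, h2⟩, h3⟩ := hcon
    have h4 := h3 hM.1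
    have h5 : (X : ℝ) ^ h ≤ M := by
      have : ⌊(X : ℝ) ^ h⌋₊ < M := by omega
      exact (Nat.lt_of_floor_lt this).le
    exact absurd (hgood M hM.1.2 h1 h5 h4) (not_le.2 hM.2)
  have hc1 := (card_le_card hsub).trans (card_union_le _ _)
  have hc2 := card_union_le (range N0) (range (⌊(X : ℝ) ^ h⌋₊ + 1))
  rw [card_range, card_range] at hc2
  have hc3 := HF X e5
  have hc4 : (((Icc 1 X).filter (fun M =>
        (cntG (FA A) r w l (Real.log X ^ B) M H : ℝ) < δ₀ / 2 * ((X : ℝ) ^ h / Real.log X))).card : ℝ) ≤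
      (N0 : ℝ) + ((H : ℝ) + 1) + (X : ℝ) ^ (2 * t - h + ε / 2) := by
    have h1 : (((Icc 1 X).filter (fun M =>
        (cntG (FA A) r w l (Real.log X ^ B) M H : ℝ) < δ₀ / 2 * ((X : ℝ) ^ h / Real.log X))).card : ℝ) ≤
        ((N0 + (H + 1) + ((Icc 1 X).filter (fun M =>
        ((gs (FA A) r w M H).card : ℝ) < δ₀ * (X : ℝ) ^ h / Real.log X)).card : ℕ) : ℝ) := by
      have h2 := hc1.trans (Nat.add_le_add_right hc2 _)
      exact_mod_cast h2
    push_cast at h1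
    linarith
  have hpw : (X : ℝ) ^ (2 * t - h) ≤ (X : ℝ) ^ (2 * t - h + ε / 2) :=
    Real.rpow_le_rpow_of_exponent_le hX1 (by linarith)
  have hH2 : (H : ℝ) ≤ (X : ℝ) ^ (2 * t - h) :=
    hHle.trans (Real.rpow_le_rpow_of_exponent_le hX1 (by linarith))
  have h1X : (1 : ℝ) ≤ (X : ℝ) ^ (2 * t - h + ε / 2) := by
    apply Real.one_le_rpow hX1
    linarith
  refine hc4.trans ?_
  have hev4 : (X : ℝ) ^ (2 * t - h + ε) = (X : ℝ) ^ (ε / 2) * (X : ℝ) ^ (2 * t - h + ε / 2) := by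
    rw [← Real.rpow_add hX0]; congr 1; ring
  rw [hev4]
  have h5 : (0 : ℝ) < (X : ℝ) ^ (2 * t - h + ε / 2) := by positivity
  calc (N0 : ℝ) + ((H : ℝ) + 1) + (X : ℝ) ^ (2 * t - h + ε / 2) ≤
      4 * (X : ℝ) ^ (2 * t - h + ε / 2) := by linarith
    _ ≤ (X : ℝ) ^ (ε / 2) * (X : ℝ) ^ (2 * t - h + ε / 2) := by gcongr

end Pool.Agent.L5helper16.QX
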