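import Pool.Agent.Y781.JR.Dens
import Pool.Agent.Y882.JR.Lim
import Pool.Agent.W366.DC.SFX
import Pool.Agent.Y445.JRB.Buch
import Pool.Agent.L5helper16.QX.JR
import Pool.Agent.L5helper16.QX.Pol

/-! The linear sieve for `X ^ 2 + X + A` in almost all short intervals, with the constant of Conjecture F. -/

set_option autoImplicit false

namespace Pool.Agent.L5helper16.QX

open Filter Finset Topology
open Pool.Agent.W23.DC
open Pool.Agent.Y882.PX
open Pool.Agent.Y882.SI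
open Pool.Agent.Y882.JR
open Pool.Agent.Y781.JR

theorem densG_eq (A : ℤ) (hA : Odd A) (z : ℝ) (hz : 2 < z) :
    densG (FA A) z = 2 * Pool.Agent.Y882.JR.dens (4 * A - 1) z := by
  unfold densG Pool.Agent.Y882.JR.dens
  have h2 : 2 ∈ (range ⌈z⌉₊).filter Nat.Prime :=
    mem_filter.2 ⟨mem_range.2 (Nat.lt_ceil.2 (by exact_mod_cast hz)), Nat.prime_two⟩
  rw [← mul_prod_erase _ _ h2, ← mul_prod_erase _ _ h2, ro_two A hA]
  have h3 : ∏ p ∈ ((range ⌈z⌉₊).filter Nat.Prime).erase 2, (1 - (ro (FA A) 0 p : ℝ) / p) =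
      ∏ p ∈ ((range ⌈z⌉₊).filter Nat.Prime).erase 2,
        (1 - (((Finset.range p).filter (fun m : ℕ => (p : ℤ) ∣ (m : ℤ) ^ 2 + (4 * A - 1))).card : ℝ) / p) := by
    refine prod_congr rfl (fun p hp => ?_)
    rw [mem_erase, mem_filter] at hp
    rw [rho_eq, ro_odd A p hp.2.2 hp.1]
  rw [h3, rho_eq, ro_quad_two]
  norm_num
  ring

open Classical in
/-- the linear sieve for `X ^ 2 + X + A` in almost all short intervals -/
theorem two_sided (A : ℤ) (hA : Odd A) (hΔ : ¬ IsSquare (1 - 4 * A)) :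
    ∃ (C A0 : ℝ) (F f : ℝ → ℝ), 0 < C ∧ Tendsto (RR (4 * A - 1)) atTop (𝓝 C) ∧
    SF A0 F f ∧ A0 = 2 * Real.exp Real.eulerMascheroniConstant ∧
    ∀ s t h δ ε : ℝ, 1 ≤ s → 1 / 2 ≤ t → t < 1 → 0 < h → h ≤ 1 → 0 < δ → 0 < ε →
      ∀ᶠ X : ℕ in atTop, (((Icc 1 X).filter (fun N : ℕ =>
        ¬ ((f s - δ) * (2 * C * Real.exp (-Real.eulerMascheroniConstant) * (s / t) * ((X : ℝ) ^ h / Real.log X)) ≤
            (roughG (FA A) ((X : ℝ) ^ (t / s)) N ⌊(X : ℝ) ^ h⌋₊ : ℝ) ∧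
          (roughG (FA A) ((X : ℝ) ^ (t / s)) N ⌊(X : ℝ) ^ h⌋₊ : ℝ) ≤
          (F s + δ) * (2 * C * Real.exp (-Real.eulerMascheroniConstant) * (s / t) *
            ((X : ℝ) ^ h / Real.log X))))).card : ℝ) ≤
        (X : ℝ) ^ (2 * t - h + ε) := by
  obtain ⟨A0, F, f, hSF⟩ := Pool.Agent.W366.DC.SFX
  have hA0 : A0 = 2 * Real.exp Real.eulerMascheroniConstant :=
    A0_eq Pool.Agent.Y445.JRB.t hSF
  have hns : ¬ IsSquare (-(4 * A - 1)) := nsq' A hΔ
  obtain ⟨C, hC, hR⟩ := RR_conv (4 * A - 1) hns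
  obtain ⟨C', hC', hN', hz⟩ := Pool.Agent.Y781.JR.t (4 * A - 1) hns
  have hCC : C' = C := by
    refine tendsto_nhds_unique hN' ?_
    refine hR.congr (fun N => ?_)
    rw [dens_eq, Nat.ceil_natCast]
    change RR (4 * A - 1) N = GG N * RR (4 * A - 1) N / GG N
    rw [mul_div_cancel_left₀ _ (GG_pos N).ne']
  rw [hCC] at hz
  set γ := Real.eulerMascheroniConstant with hγ
  refine ⟨C, A0, F, f, hC, hR, hSF, hA0, ?_⟩
  intro s t h δ ε hs ht1 ht hh hh1 hδ hε
  have hs0 : 0 < s := by linarith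
  have ht0 : 0 < t := by linarith
  have hXr : Tendsto (fun X : ℕ => (X : ℝ)) atTop atTop := tendsto_natCast_atTop_atTop
  set κ : ℝ := 2 * C * Real.exp (-γ) * (s / t) with hκ
  have hκ0 : 0 < κ := by positivity
  obtain ⟨c, hQ⟩ := qd_FA A hA hΔ
  -- the density
  have hz2 : Tendsto (fun X : ℕ => densG (FA A) ((X : ℝ) ^ (t / s)) * Real.log X) atTop (𝓝 κ) := by
    have h1 := ((hz.comp ((tendsto_rpow_atTop (show 0 < t / s by positivity)).comp hXr)).div_const
      (t / s)).const_mul 2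
    have e : 2 * (C * Real.exp (-γ) / (t / s)) = κ := by
      rw [hκ]
      field_simp
    rw [e] at h1
    refine h1.congr' ?_
    have ev : ∀ᶠ X : ℕ in atTop, (2 : ℝ) < (X : ℝ) ^ (t / s) :=
      ((tendsto_rpow_atTop (show 0 < t / s by positivity)).comp hXr).eventually_gt_atTop _
    filter_upwards [eventually_gt_atTop 0, ev] with X hX hX2
    have hX0 : (0 : ℝ) < X := by exact_mod_cast hX
    simp only [Function.comp]
    rw [Real.log_rpow hX0, densG_eq A hA _ hX2]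
    field_simp
  have H := finJRG A0 F f hSF (FA A) 2 c hQ.cpos hQ.ro_le hQ.mer hQ.lo t s h (δ / 2) ε ht1 ht hs hh hh1
    (by linarith) hε
  have ev1 : ∀ᶠ X : ℕ in atTop, (f s - δ) * κ <
      (f s - δ / 2) * (densG (FA A) ((X : ℝ) ^ (t / s)) * Real.log X) := by
    have h1 := hz2.const_mul (f s - δ / 2)
    apply h1.eventually (lt_mem_nhds _)
    nlinarith
  have ev2 : ∀ᶠ X : ℕ in atTop, (F s + δ / 2) * (densG (FA A) ((X : ℝ) ^ (t / s)) * Real.log X) <
      (F s + δ) * κ := by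
    have h1 := hz2.const_mul (F s + δ / 2)
    apply h1.eventually (gt_mem_nhds _)
    nlinarith
  filter_upwards [H, ev1, ev2, eventually_ge_atTop 3] with X hX e1 e2 hX3
  have hX3r : (3 : ℝ) ≤ X := by exact_mod_cast hX3
  have hX0 : (0 : ℝ) < X := by linarith
  have hl : 0 < Real.log X := Real.log_pos (by linarith)
  refine le_trans ?_ hX
  norm_cast
  apply card_le_card
  intro N hN
  rw [mem_filter] at hN ⊢
  refine ⟨hN.1, fun hcon => hN.2 ?_⟩
  have h8 : 0 ≤ (X : ℝ) ^ h / Real.log X := by positivity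
  have h7 : ∀ u : ℝ, u * ((X : ℝ) ^ h * densG (FA A) ((X : ℝ) ^ (t / s))) =
      (u * (densG (FA A) ((X : ℝ) ^ (t / s)) * Real.log X)) * ((X : ℝ) ^ h / Real.log X) := by
    intro u
    field_simp
  constructor
  · refine le_trans ?_ hcon.1
    rw [h7, ← mul_assoc (f s - δ)]
    exact mul_le_mul_of_nonneg_right e1.le h8
  · refine le_trans hcon.2 ?_
    rw [h7, ← mul_assoc (F s + δ)]
    exact mul_le_mul_of_nonneg_right e2.le h8

/-- the number of the `n` in `(N, N + H]` such that `n ^ 2 + n + A` is a prime -/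
noncomputable def primesA (A : ℕ) (N H : ℕ) : ℕ := ((Ioc N (N + H)).filter (fun n : ℕ => (n ^ 2 + n + A).Prime)).card

open Classical in
theorem splitA (A : ℕ) (z : ℝ) (N H : ℕ) (M : ℕ) (hM : ∀ n : ℕ, M < n → z ≤ (n : ℝ) ^ 2) :
    primesA A N H ≤ roughG (FA A) z N H + (if M ≤ N then 0 else M) := by
  unfold primesA roughG
  have h1 : (Ioc N (N + H)).filter (fun n : ℕ => (n ^ 2 + n + A).Prime) ⊆
      (Finset.Ioc N (N + H)).filter
        (fun n : ℕ => ∀ p : ℕ, p.Prime → (p : ℤ) ∣ (FA A).eval (n : ℤ) → z ≤ p) ∪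
      (if M ≤ N then ∅ else Ioc 0 M) := by
    intro n hn
    rw [mem_filter, mem_Ioc] at hn
    rw [mem_union, mem_filter, mem_Ioc]
    by_cases hMn : M < n
    · left
      refine ⟨hn.1, fun p hp hd => ?_⟩
      rw [FA_eval] at hd
      have h2 : p ∣ n ^ 2 + n + A := by exact_mod_cast hd
      rw [(Nat.prime_dvd_prime_iff_eq hp hn.2).1 h2]
      push_cast
      have h3 := hM n hMn
      have h4 : (0 : ℝ) ≤ n := Nat.cast_nonneg n
      have h5 : (0 : ℝ) ≤ A := Nat.cast_nonneg A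
      linarith
    · right
      push Not at hMn
      rw [if_neg (by omega), mem_Ioc]
      omega
  refine (card_le_card h1).trans ((card_union_le _ _).trans ?_)
  apply Nat.add_le_add_left
  split_ifs
  · simp
  · simp

open Classical in
/-- the upper bound for the primes, from the upper bound of the sieve with `s = 1` -/
theorem upperA (A : ℕ) (C A0 : ℝ) (hC : 0 < C) (hA0 : A0 = 2 * Real.exp Real.eulerMascheroniConstant)
    (H : ∀ t h δ ε : ℝ, 1 / 2 ≤ t → t < 1 → 0 < h → h ≤ 1 → 0 < δ → 0 < ε →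
      ∀ᶠ X : ℕ in atTop, (((Icc 1 X).filter (fun N : ℕ =>
          (A0 + δ) * (2 * C * Real.exp (-Real.eulerMascheroniConstant) * (1 / t) *
            ((X : ℝ) ^ h / Real.log X)) < (roughG (FA A) ((X : ℝ) ^ t) N ⌊(X : ℝ) ^ h⌋₊ : ℝ))).card : ℝ) ≤
        (X : ℝ) ^ (2 * t - h + ε)) (h τ δ ε : ℝ) (hh : 0 < h) (hh1 : h ≤ 1) (hτ1 : 1 / 2 ≤ τ) (hτ : τ < 1)
    (hδ : 0 < δ) (hε : 0 < ε) :
      ∀ᶠ X : ℕ in atTop, (((Icc 1 X).filter (fun N : ℕ =>
        (4 / τ + δ) * (C * ((X : ℝ) ^ h / Real.log X)) <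
          (primesA A N ⌊(X : ℝ) ^ h⌋₊ : ℝ))).card : ℝ) ≤ (X : ℝ) ^ (2 * τ - h + ε) := by
  have hτ0 : 0 < τ := by linarith
  set γ := Real.eulerMascheroniConstant with hγ
  have hE : 0 < Real.exp γ := Real.exp_pos _
  have hXr : Tendsto (fun X : ℕ => (X : ℝ)) atTop atTop := tendsto_natCast_atTop_atTop
  set δ' : ℝ := δ * Real.exp γ * τ / 4 with hδ'
  have hδ'0 : 0 < δ' := by positivity
  have hval : (A0 + δ') * (2 * C * Real.exp (-γ) * (1 / τ)) = (4 / τ + δ / 2) * C := by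
    rw [hA0, hδ', Real.exp_neg]
    field_simp
    ring
  have H1 := H τ h δ' (ε / 2) hτ1 hτ hh hh1 hδ'0 (by linarith)
  -- the small n
  have hsmall : ∀ᶠ X : ℕ in atTop, ∀ n : ℕ, ⌊(X : ℝ) ^ (τ / 2)⌋₊ < n →
      (X : ℝ) ^ τ ≤ (n : ℝ) ^ 2 := by
    filter_upwards [eventually_gt_atTop 0] with X hX n hn
    have hX0 : (0 : ℝ) < X := by exact_mod_cast hX
    have h1 : (X : ℝ) ^ (τ / 2) < n := Nat.lt_of_floor_lt hn
    have h2 : (X : ℝ) ^ τ = ((X : ℝ) ^ (τ / 2)) ^ 2 := by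
      rw [← Real.rpow_natCast, ← Real.rpow_mul hX0.le]
      norm_num
    rw [h2]
    have h3 : 0 ≤ (X : ℝ) ^ (τ / 2) := by positivity
    nlinarith
  have evε : ∀ᶠ X : ℕ in atTop, (2 : ℝ) ≤ (X : ℝ) ^ (ε / 2) :=
    ((tendsto_rpow_atTop (by linarith)).comp hXr).eventually_ge_atTop _
  rcases lt_or_ge (τ / 2) h with hc | hc
  · -- the small n are negligible
    have ev2 : ∀ᶠ X : ℕ in atTop, (X : ℝ) ^ (τ / 2) ≤ δ / 2 * (C * ((X : ℝ) ^ h / Real.log X)) := by
      have h1 := (isLittleO_log_rpow_atTop (show 0 < h - τ / 2 by linarith)).bound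
        (show 0 < δ / 2 * C by positivity)
      filter_upwards [hXr.eventually h1, eventually_ge_atTop 3] with X hX hX3
      have hX3r : (3 : ℝ) ≤ X := by exact_mod_cast hX3
      have hX0 : (0 : ℝ) < X := by linarith
      have hl : 0 < Real.log X := Real.log_pos (by linarith)
      rw [Real.norm_of_nonneg hl.le, Real.norm_of_nonneg (by positivity)] at hX
      have h2 : (X : ℝ) ^ h = (X : ℝ) ^ (h - τ / 2) * (X : ℝ) ^ (τ / 2) := by
        rw [← Real.rpow_add hX0]; congr 1; ring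
      rw [h2]
      have h3 : 0 < (X : ℝ) ^ (τ / 2) := by positivity
      have h4 : δ / 2 * (C * ((X : ℝ) ^ (h - τ / 2) * (X : ℝ) ^ (τ / 2) / Real.log X)) =
          (δ / 2 * C * (X : ℝ) ^ (h - τ / 2)) / Real.log X * (X : ℝ) ^ (τ / 2) := by ring
      rw [h4]
      have h5 : 1 ≤ (δ / 2 * C * (X : ℝ) ^ (h - τ / 2)) / Real.log X := by
        rw [le_div_iff₀ hl]; linarith
      nlinarith
    filter_upwards [H1, ev2, hsmall, evε, eventually_ge_atTop 3] with X hX e2 e3 e4 hX3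
    have hX3r : (3 : ℝ) ≤ X := by exact_mod_cast hX3
    have hX0 : (0 : ℝ) < X := by linarith
    have hl : 0 < Real.log X := Real.log_pos (by linarith)
    refine le_trans ?_ (hX.trans ?_)
    · norm_cast
      apply card_le_card
      intro N hN
      rw [mem_filter] at hN ⊢
      refine ⟨hN.1, ?_⟩
      by_contra hcon
      push Not at hcon
      have h1 := splitA A ((X : ℝ) ^ τ) N ⌊(X : ℝ) ^ h⌋₊ ⌊(X : ℝ) ^ (τ / 2)⌋₊ e3
      have h2 : (primesA A N ⌊(X : ℝ) ^ h⌋₊ : ℝ) ≤ roughG (FA A) ((X : ℝ) ^ τ) N ⌊(X : ℝ) ^ h⌋₊ +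
          (X : ℝ) ^ (τ / 2) := by
        have h3 : ((if ⌊(X : ℝ) ^ (τ / 2)⌋₊ ≤ N then 0 else ⌊(X : ℝ) ^ (τ / 2)⌋₊ : ℕ) : ℝ) ≤
            (X : ℝ) ^ (τ / 2) := by
          split_ifs
          · push_cast; positivity
          · exact Nat.floor_le (by positivity)
        have h4 : (primesA A N ⌊(X : ℝ) ^ h⌋₊ : ℝ) ≤
            ((roughG (FA A) ((X : ℝ) ^ τ) N ⌊(X : ℝ) ^ h⌋₊ +
              (if ⌊(X : ℝ) ^ (τ / 2)⌋₊ ≤ N then 0 else ⌊(X : ℝ) ^ (τ / 2)⌋₊) : ℕ) : ℝ) := by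
          exact_mod_cast h1
        rw [Nat.cast_add] at h4
        linarith
      have h7 : (A0 + δ') * (2 * C * Real.exp (-γ) * (1 / τ) * ((X : ℝ) ^ h / Real.log X)) =
          (4 / τ + δ / 2) * (C * ((X : ℝ) ^ h / Real.log X)) := by
        rw [← mul_assoc, hval]
        ring
      rw [h7] at hcon
      have h9 := hN.2
      have h10 : (4 / τ + δ) * (C * ((X : ℝ) ^ h / Real.log X)) =
          (4 / τ + δ / 2) * (C * ((X : ℝ) ^ h / Real.log X)) + δ / 2 * (C * ((X : ℝ) ^ h / Real.log X)) := by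
        ring
      linarith
    · apply Real.rpow_le_rpow_of_exponent_le (by linarith)
      linarith
  · -- the small N are exceptional
    filter_upwards [H1, hsmall, evε, eventually_ge_atTop 3] with X hX e3 e4 hX3
    have hX3r : (3 : ℝ) ≤ X := by exact_mod_cast hX3
    have hX0 : (0 : ℝ) < X := by linarith
    have hl : 0 < Real.log X := Real.log_pos (by linarith)
    set M : ℕ := ⌊(X : ℝ) ^ (τ / 2)⌋₊ with hM
    have hsub : (Icc 1 X).filter (fun N : ℕ =>
        (4 / τ + δ) * (C * ((X : ℝ) ^ h / Real.log X)) <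
          (primesA A N ⌊(X : ℝ) ^ h⌋₊ : ℝ)) ⊆
        Ioc 0 M ∪ (Icc 1 X).filter (fun N : ℕ =>
          (A0 + δ') * (2 * C * Real.exp (-γ) * (1 / τ) *
            ((X : ℝ) ^ h / Real.log X)) < (roughG (FA A) ((X : ℝ) ^ τ) N ⌊(X : ℝ) ^ h⌋₊ : ℝ)) := by
      intro N hN
      rw [mem_filter] at hN
      rw [mem_union, mem_filter, mem_Ioc]
      rcases Nat.lt_or_ge N M with hNM | hNM
      · left
        have := (mem_Icc.1 hN.1).1
        omega
      · right
        refine ⟨hN.1, ?_⟩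
        by_contra hcon
        push Not at hcon
        have h1 := splitA A ((X : ℝ) ^ τ) N ⌊(X : ℝ) ^ h⌋₊ M e3
        rw [if_pos hNM, add_zero] at h1
        have h2 : (primesA A N ⌊(X : ℝ) ^ h⌋₊ : ℝ) ≤ roughG (FA A) ((X : ℝ) ^ τ) N ⌊(X : ℝ) ^ h⌋₊ := by
          exact_mod_cast h1
        have h7 : (A0 + δ') * (2 * C * Real.exp (-γ) * (1 / τ) * ((X : ℝ) ^ h / Real.log X)) =
            (4 / τ + δ / 2) * (C * ((X : ℝ) ^ h / Real.log X)) := by
          rw [← mul_assoc, hval]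
          ring
        rw [h7] at hcon
        have h9 := hN.2
        have h10 : 0 < δ / 2 * (C * ((X : ℝ) ^ h / Real.log X)) := by positivity
        have h11 : (4 / τ + δ) * (C * ((X : ℝ) ^ h / Real.log X)) =
            (4 / τ + δ / 2) * (C * ((X : ℝ) ^ h / Real.log X)) + δ / 2 * (C * ((X : ℝ) ^ h / Real.log X)) := by
          ring
        linarith
    have h1 := card_le_card hsub
    have h2 := h1.trans (card_union_le _ _)
    have h3 : (((Icc 1 X).filter (fun N : ℕ =>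
        (4 / τ + δ) * (C * ((X : ℝ) ^ h / Real.log X)) <
          (primesA A N ⌊(X : ℝ) ^ h⌋₊ : ℝ))).card : ℝ) ≤ ((Ioc 0 M).card : ℝ) +
          (X : ℝ) ^ (2 * τ - h + ε / 2) := by
      refine le_trans ?_ (add_le_add le_rfl hX)
      exact_mod_cast h2
    refine h3.trans ?_
    have h4 : ((Ioc 0 M).card : ℝ) ≤ (X : ℝ) ^ (2 * τ - h + ε / 2) := by
      rw [Nat.card_Ioc, Nat.sub_zero, hM]
      refine (Nat.floor_le (by positivity)).trans ?_
      apply Real.rpow_le_rpow_of_exponent_le (by linarith)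
      linarith
    calc ((Ioc 0 M).card : ℝ) + (X : ℝ) ^ (2 * τ - h + ε / 2) ≤ 2 * (X : ℝ) ^ (2 * τ - h + ε / 2) := by
          linarith
      _ ≤ (X : ℝ) ^ (ε / 2) * (X : ℝ) ^ (2 * τ - h + ε / 2) := by gcongr
      _ = (X : ℝ) ^ (2 * τ - h + ε) := by
          rw [← Real.rpow_add hX0]; congr 1; ring

end Pool.Agent.L5helper16.QX
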